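import Pool.Agent.Q284.PX.Stm
import Pool.Agent.Q277.PS.Fac

/-!
# Project PX, jobs AFM and P0R: multiplicativity, and the special prime split off
-/

set_option autoImplicit false

open Finset Polynomial ComplexConjugate
open Pool.Agent.H341R2.Sharp (Mon mem_Mon)

namespace Pool.Agent.Q237.PX

open Pool.Agent.Q284.PS Pool.Agent.Q284.PX UniqueFactorizationMonoid
open Pool.Agent.Q277.PS (nf_mem pow_dvd_iff_count mem_nf_iff mirr_eq)

section gen

variable {F : Type} [Field F]

open Classical in
theorem AF_one (v : F[X] → ℕ → ℝ) : AF v (1 : F[X]) = 1 := by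
  unfold AF
  rw [normalizedFactors_one]
  simp

open Classical in
theorem AF_mul (v : F[X] → ℕ → ℝ) (f g : F[X]) (hf : f ≠ 0) (hg : g ≠ 0)
    (hfg : IsCoprime f g) : AF v (f * g) = AF v f * AF v g := by
  unfold AF
  rw [normalizedFactors_mul hf hg, Multiset.toFinset_add]
  have hdis : ∀ P, P ∈ normalizedFactors f → P ∉ normalizedFactors g := by
    intro P h1 h2
    have h3 := dvd_of_mem_normalizedFactors h1
    have h4 := dvd_of_mem_normalizedFactors h2
    exact (nf_mem h1).2.not_isUnit (hfg.isUnit_of_dvd' h3 h4)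
  rw [Finset.prod_union]
  · congr 1
    · refine Finset.prod_congr rfl fun P hP => ?_
      rw [Multiset.mem_toFinset] at hP
      rw [Multiset.count_add, Multiset.count_eq_zero_of_notMem (hdis P hP), add_zero]
    · refine Finset.prod_congr rfl fun P hP => ?_
      rw [Multiset.mem_toFinset] at hP
      have : P ∉ normalizedFactors f := fun h => hdis P h hP
      rw [Multiset.count_add, Multiset.count_eq_zero_of_notMem this, zero_add]
  · rw [Finset.disjoint_left]
    intro P h1 h2
    rw [Multiset.mem_toFinset] at h1 h2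
    exact hdis P h1 h2

open Classical in
theorem AF_pow (v : F[X] → ℕ → ℝ) (hv : ∀ P : F[X], v P 0 = 1) (P : F[X]) (k : ℕ) (hP : P.Monic)
    (hI : Irreducible P) : AF v (P ^ k) = v P k := by
  rcases Nat.eq_zero_or_pos k with rfl | hk
  · rw [pow_zero, AF_one, hv]
  · unfold AF
    rw [normalizedFactors_pow, normalizedFactors_irreducible hI, hP.normalize_eq_self,
      Multiset.toFinset_nsmul _ _ hk.ne', Multiset.toFinset_singleton, Finset.prod_singleton,
      Multiset.count_nsmul, Multiset.count_singleton_self, mul_one]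

theorem t_AFM : S_AFM := by
  intro F _ v hv
  have h2 : ∀ f g : F[X], f.Monic → g.Monic → IsCoprime f g → AF v (f * g) = AF v f * AF v g :=
    fun f g hf hg h => AF_mul v f g hf.ne_zero hg.ne_zero h
  refine ⟨AF_one v, h2, fun P k hP hI => AF_pow v hv P k hP hI, ?_, ?_⟩
  · refine ⟨?_, fun f _ => abs_nonneg _, fun f g hf hg h => ?_⟩
    · rw [AF_one, abs_one]
    · rw [h2 f g hf hg h, abs_mul]
  · refine ⟨?_, fun f _ => sq_nonneg _, fun f g hf hg h => ?_⟩
    · rw [AF_one, one_pow]
    · rw [h2 f g hf hg h, mul_pow]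

end gen

end Pool.Agent.Q237.PX
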