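import Pool.Agent.Q284.PX.Stm

/-!
# Project PX, job CVB: the bound for the middle coefficient
-/

set_option autoImplicit false

open Finset Polynomial ComplexConjugate Filter

namespace Pool.Agent.Q237.PX

open Pool.Agent.Q284.PS Pool.Agent.Q284.PX

theorem BB_pos : 0 < BB := by unfold BB; norm_num

theorem BB3_le : 3 * BB ≤ 1 := by unfold BB; norm_num

/-- a crude bound for the weights -/
theorem w2_le {q : ℝ} (hq : 3 ≤ q) {d k : ℕ} (hk : 1 ≤ k) : w2 q d k ≤ q ^ (k : ℝ) := by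
  have hkr : (1 : ℝ) ≤ k := by exact_mod_cast hk
  unfold w2
  have h1 : (1 : ℝ) ≤ (k : ℝ) ^ ((5 : ℝ) / 2) := Real.one_le_rpow hkr (by norm_num)
  have h2 : q ^ ((1 - 5 / (2 * (d : ℝ))) * (k : ℝ)) ≤ q ^ (k : ℝ) := by
    apply Real.rpow_le_rpow_of_exponent_le (by linarith)
    have h3 : 0 ≤ 5 / (2 * (d : ℝ)) := by positivity
    nlinarith
  have h4 : 0 ≤ q ^ ((1 - 5 / (2 * (d : ℝ))) * (k : ℝ)) := Real.rpow_nonneg (by linarith) _
  calc q ^ ((1 - 5 / (2 * (d : ℝ))) * (k : ℝ)) / (k : ℝ) ^ ((5 : ℝ) / 2) ≤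
        q ^ ((1 - 5 / (2 * (d : ℝ))) * (k : ℝ)) := div_le_self h4 h1
    _ ≤ q ^ (k : ℝ) := h2

theorem w2_nonneg {q : ℝ} (hq : 3 ≤ q) (d k : ℕ) : 0 ≤ w2 q d k := by
  unfold w2
  have : 0 ≤ q := by linarith
  positivity

/-- the coefficients in the lower range -/
theorem ek_le {q : ℝ} (hq : 3 ≤ q) {d k : ℕ} {x : ℝ} (hk : 1 ≤ k) (h : x ≤ 3 * BB * w2 q d k) : x ≤ q ^ (k : ℝ) := by
  have h1 := w2_le (d := d) hq hk
  have h2 := w2_nonneg hq d k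
  calc x ≤ 3 * BB * w2 q d k := h
    _ ≤ 1 * w2 q d k := mul_le_mul_of_nonneg_right BB3_le h2
    _ ≤ q ^ (k : ℝ) := by rw [one_mul]; exact h1

theorem sqrt_pow {q : ℝ} (hq : 0 < q) (M : ℕ) : Real.sqrt q ^ M = q ^ ((M : ℝ) / 2) := by
  rw [Real.sqrt_eq_rpow, ← Real.rpow_natCast, ← Real.rpow_mul hq.le]
  congr 1
  ring

theorem ev_exp : ∃ M₀ : ℕ, ∀ M : ℕ, M₀ ≤ M → 32 * 10 ^ 8 * (M : ℝ) ^ 4 ≤ ((3 : ℝ) ^ ((1 : ℝ) / 40)) ^ M := by
  have hb : 1 < (3 : ℝ) ^ ((1 : ℝ) / 40) := Real.one_lt_rpow (by norm_num) (by norm_num)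
  have t1 : Tendsto (fun k : ℕ => (k : ℝ) ^ 4 / ((3 : ℝ) ^ ((1 : ℝ) / 40)) ^ k) atTop (nhds 0) :=
    tendsto_pow_const_div_const_pow_of_one_lt 4 hb
  obtain ⟨M₀, hM₀⟩ := eventually_atTop.1 (t1.eventually_lt_const (show (0 : ℝ) < 1 / (32 * 10 ^ 8) by norm_num))
  refine ⟨M₀, fun M hM => ?_⟩
  have h1 := hM₀ M hM
  have hpos : 0 < ((3 : ℝ) ^ ((1 : ℝ) / 40)) ^ M := by positivity
  rw [div_lt_iff₀ hpos] at h1
  linarith

theorem t_CVB : S_CVB := by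
  obtain ⟨M₀, hM₀⟩ := ev_exp
  refine ⟨max 200 (2 * M₀), ?_⟩
  intro d hd q M ε v e hq hdM hε hv he0 hek
  have hd1 : 200 ≤ d := le_trans (le_max_left _ _) hd
  have hd2 : 2 * M₀ ≤ d := le_trans (le_max_right _ _) hd
  have hdr : (200 : ℝ) ≤ d := by exact_mod_cast hd1
  have hd0 : (0 : ℝ) < d := by linarith
  have hdMr : (d : ℝ) ≤ 2 * M := by exact_mod_cast hdM
  have hM0 : (0 : ℝ) < M := by linarith
  have hq0 : 0 < q := by linarith
  have hq1 : 1 ≤ q := by linarith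
  have hκ : 0 < kap d := by unfold kap; positivity
  have hs0 : 0 < Real.sqrt q := Real.sqrt_pos.2 hq0
  -- the terms
  have hterm : ∀ k ∈ (range M).filter (fun k => 10 * k < 9 * M),
      ‖(e k + ε * conj (e k)) * ((Real.sqrt q : ℂ) ^ k)⁻¹‖ ≤ 2 * q ^ ((9 : ℝ) * M / 20) := by
    intro k hk
    rw [mem_filter, mem_range] at hk
    obtain ⟨hk1, hk2⟩ := hk
    have hk2r : 10 * (k : ℝ) < 9 * M := by exact_mod_cast hk2
    have h1 : ‖e k‖ ≤ q ^ (k : ℝ) := by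
      rcases Nat.eq_zero_or_pos k with rfl | hk0
      · simpa using he0
      · exact ek_le hq hk0 (hek k hk0 hk1)
    have h2 : ‖e k + ε * conj (e k)‖ ≤ 2 * q ^ (k : ℝ) := by
      refine (norm_add_le _ _).trans ?_
      rw [norm_mul, hε, one_mul, Complex.norm_conj]
      linarith
    rw [norm_mul, norm_inv, norm_pow, Complex.norm_real, Real.norm_of_nonneg hs0.le, sqrt_pow hq0,
      ← Real.rpow_neg hq0.le]
    calc ‖e k + ε * conj (e k)‖ * q ^ (-((k : ℝ) / 2)) ≤ 2 * q ^ (k : ℝ) * q ^ (-((k : ℝ) / 2)) := by gcongr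
      _ = 2 * q ^ ((k : ℝ) / 2) := by
          rw [mul_assoc, ← Real.rpow_add hq0]
          congr 2
          ring
      _ ≤ 2 * q ^ ((9 : ℝ) * M / 20) := by
          have : q ^ ((k : ℝ) / 2) ≤ q ^ ((9 : ℝ) * M / 20) := Real.rpow_le_rpow_of_exponent_le hq1 (by linarith)
          linarith
  have hsum : ‖∑ k ∈ (range M).filter (fun k => 10 * k < 9 * M),
      (e k + ε * conj (e k)) * ((Real.sqrt q : ℂ) ^ k)⁻¹‖ ≤ M * (2 * q ^ ((9 : ℝ) * M / 20)) := by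
    refine (norm_sum_le_of_le _ hterm).trans ?_
    rw [sum_const, nsmul_eq_mul]
    have h1 : ((range M).filter (fun k => 10 * k < 9 * M)).card ≤ M := by
      refine (card_filter_le _ _).trans ?_
      rw [card_range]
    have h2 : ((((range M).filter (fun k => 10 * k < 9 * M)).card : ℕ) : ℝ) ≤ M := by exact_mod_cast h1
    gcongr
  -- the numbers
  have hnum : M * (2 * q ^ ((9 : ℝ) * M / 20)) ≤ kap d / 2 * q ^ ((1 / 2 - 5 / (d : ℝ)) * M) := by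
    have h1 : q ^ ((1 / 2 - 5 / (d : ℝ)) * M) = q ^ ((9 : ℝ) * M / 20) * q ^ ((1 / 20 - 5 / (d : ℝ)) * M) := by
      rw [← Real.rpow_add hq0]
      congr 1
      ring
    have h2 : 32 * 10 ^ 8 * (M : ℝ) ^ 4 ≤ q ^ ((1 / 20 - 5 / (d : ℝ)) * M) := by
      refine (hM₀ M (by omega)).trans ?_
      have h3 : 5 / (d : ℝ) ≤ 1 / 40 := by
        rw [div_le_div_iff₀ hd0 (by norm_num)]
        linarith
      calc ((3 : ℝ) ^ ((1 : ℝ) / 40)) ^ M ≤ (q ^ ((1 : ℝ) / 40)) ^ M := by gcongr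
        _ = q ^ (1 / 40 * (M : ℝ)) := by rw [← Real.rpow_natCast, ← Real.rpow_mul hq0.le]
        _ ≤ q ^ ((1 / 20 - 5 / (d : ℝ)) * M) := by
            apply Real.rpow_le_rpow_of_exponent_le hq1
            apply mul_le_mul_of_nonneg_right _ hM0.le
            linarith
    have h3 : 4 * (M : ℝ) ≤ kap d * (32 * 10 ^ 8 * (M : ℝ) ^ 4) := by
      unfold kap
      rw [one_div, inv_mul_eq_div, le_div_iff₀ (by positivity)]
      have h4 : (d : ℝ) ^ 3 ≤ (2 * (M : ℝ)) ^ 3 := by gcongr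
      calc 4 * (M : ℝ) * (10 ^ 8 * (d : ℝ) ^ 3) ≤ 4 * (M : ℝ) * (10 ^ 8 * (2 * (M : ℝ)) ^ 3) := by gcongr
        _ = 32 * 10 ^ 8 * (M : ℝ) ^ 4 := by ring
    have h5 : 4 * (M : ℝ) ≤ kap d * q ^ ((1 / 20 - 5 / (d : ℝ)) * M) :=
      h3.trans (mul_le_mul_of_nonneg_left h2 hκ.le)
    rw [h1]
    have h6 : 0 ≤ q ^ ((9 : ℝ) * M / 20) := by positivity
    calc M * (2 * q ^ ((9 : ℝ) * M / 20)) = q ^ ((9 : ℝ) * M / 20) / 2 * (4 * M) := by ring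
      _ ≤ q ^ ((9 : ℝ) * M / 20) / 2 * (kap d * q ^ ((1 / 20 - 5 / (d : ℝ)) * M)) := by gcongr
      _ = kap d / 2 * (q ^ ((9 : ℝ) * M / 20) * q ^ ((1 / 20 - 5 / (d : ℝ)) * M)) := by ring
  have hv2 : ‖v‖ ≤ kap d / 2 * q ^ ((1 / 2 - 5 / (d : ℝ)) * M) := by
    have h1 : (1 / 4 - 5 / (2 * (d : ℝ))) * ((2 * M : ℕ) : ℝ) = (1 / 2 - 5 / (d : ℝ)) * M := by
      push_cast
      field_simp
      ring
    rw [h1] at hv
    exact hv
  unfold cmid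
  rw [norm_mul, norm_pow, Complex.norm_real, Real.norm_of_nonneg hs0.le, sqrt_pow hq0]
  calc q ^ ((M : ℝ) / 2) * ‖v - ∑ k ∈ (range M).filter (fun k => 10 * k < 9 * M),
        (e k + ε * conj (e k)) * ((Real.sqrt q : ℂ) ^ k)⁻¹‖ ≤
      q ^ ((M : ℝ) / 2) * (kap d / 2 * q ^ ((1 / 2 - 5 / (d : ℝ)) * M) + kap d / 2 * q ^ ((1 / 2 - 5 / (d : ℝ)) * M)) := by
        gcongr
        exact (norm_sub_le _ _).trans (add_le_add hv2 (hsum.trans hnum))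
    _ = kap d * (q ^ ((M : ℝ) / 2) * q ^ ((1 / 2 - 5 / (d : ℝ)) * M)) := by ring
    _ = kap d * q ^ ((1 - 5 / (d : ℝ)) * M) := by
        rw [← Real.rpow_add hq0]
        congr 2
        ring

end Pool.Agent.Q237.PX
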