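import Pool.Agent.Q284.PX.Stm

/-!
# Project PX, jobs CVV, CVB: the central value
-/

set_option autoImplicit false

open Finset Polynomial ComplexConjugate

namespace Pool.Agent.Q237.PX

open Pool.Agent.Q284.PS Pool.Agent.Q284.PX

theorem cpow_half {q : ℝ} (hq : 0 < q) : (q : ℂ) ^ (-(1 / 2 : ℂ)) = ((Real.sqrt q : ℝ) : ℂ)⁻¹ := by
  have h1 : ((q ^ (-(1 / 2 : ℝ)) : ℝ) : ℂ) = (q : ℂ) ^ ((-(1 / 2 : ℝ) : ℝ) : ℂ) := Complex.ofReal_cpow hq.le _
  have h2 : ((-(1 / 2 : ℝ) : ℝ) : ℂ) = -(1 / 2 : ℂ) := by push_cast; ring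
  rw [← h2, ← h1, Real.rpow_neg hq.le, ← Real.sqrt_eq_rpow]
  push_cast
  rfl

/-- the sum up to `2 M` reflected -/
theorem sum_refl {E : Type} [AddCommMonoid E] (f : ℕ → E) (M : ℕ) :
    ∑ k ∈ range (2 * M + 1), f k = ∑ k ∈ range M, f k + (∑ k ∈ range M, f (2 * M - k) + f M) := by
  have h1 : 2 * M + 1 = M + (M + 1) := by omega
  rw [h1, sum_range_add]
  congr 1
  rw [← sum_range_reflect, sum_range_succ]
  congr 1
  · refine sum_congr rfl (fun k hk => ?_)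
    rw [mem_range] at hk
    congr 1
    omega
  · congr 1
    omega

theorem t_CVV : S_CVV := by
  intro q M ε v e hq hz hM hFE
  have hq0 : 0 < q := by linarith
  obtain ⟨s, hs⟩ : ∃ s : ℂ, s = ((Real.sqrt q : ℝ) : ℂ) := ⟨_, rfl⟩
  have hs0 : s ≠ 0 := by
    rw [hs]
    exact_mod_cast (Real.sqrt_pos.2 hq0).ne'
  rw [cpow_half hq0, ← hs, sum_refl]
  have h1 : ∀ k ∈ range M, e (2 * M - k) * s⁻¹ ^ (2 * M - k) = ε * conj (e k) * (s ^ k)⁻¹ := by
    intro k hk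
    rw [mem_range] at hk
    rw [hFE (2 * M - k) k (by omega) (by omega), ← hs, inv_pow]
    have h2 : s ^ (2 * M - k) = s ^ (2 * M - k - k) * s ^ k := by
      rw [← pow_add]
      congr 1
      omega
    rw [h2]
    field_simp
  rw [sum_congr rfl h1]
  have h3 : ∑ k ∈ range M, e k * s⁻¹ ^ k + ∑ k ∈ range M, ε * conj (e k) * (s ^ k)⁻¹ =
      ∑ k ∈ (range M).filter (fun k => 10 * k < 9 * M), (e k + ε * conj (e k)) * (s ^ k)⁻¹ := by
    rw [← sum_add_distrib, sum_filter]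
    refine sum_congr rfl (fun k hk => ?_)
    rw [mem_range] at hk
    split_ifs with h
    · rw [inv_pow]
      ring
    · rw [hz k (by omega) hk]
      simp
  rw [← add_assoc, h3, hM]
  unfold cmid
  rw [← hs, inv_pow]
  have h4 : s ^ M ≠ 0 := pow_ne_zero _ hs0
  field_simp
  ring

end Pool.Agent.Q237.PX
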