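import Pool.Agent.Q284.PX.Stm

/-!
# Project PX, job LR2: the local factor at the special prime
-/

set_option autoImplicit false

open Finset Polynomial ComplexConjugate Filter

namespace Pool.Agent.Q237.PX

open Pool.Agent.Q284.PS Pool.Agent.Q284.PX

/-- products of geometric series -/
theorem geo_prod {ι : Type} [DecidableEq ι] (S : Finset ι) (γ : ι → ℝ) (Γ : ℝ) (hΓ : 0 ≤ Γ)
    (h0 : ∀ i ∈ S, 0 ≤ γ i) (h1 : ∀ i ∈ S, γ i ≤ Γ) : ∃ c : ℕ → ℝ, c 0 = 1 ∧
      (∀ k, 0 ≤ c k ∧ c k ≤ 2 ^ (k + S.card) * Γ ^ k) ∧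
      ∀ w : ℂ, ‖w‖ * Γ < 1 → Summable (fun k : ℕ => ‖(c k : ℂ) * w ^ k‖) ∧
        HasSum (fun k : ℕ => (c k : ℂ) * w ^ k) (∏ i ∈ S, (1 - (γ i : ℂ) * w)⁻¹) := by
  induction S using Finset.induction_on with
  | empty =>
    refine ⟨fun k => if k = 0 then 1 else 0, by simp, ?_, ?_⟩
    · intro k
      simp only
      split_ifs with h
      · subst h
        simp
      · constructor
        · exact le_rfl
        · positivity
    · intro w _
      have h2 : ∀ k : ℕ, k ≠ 0 → (((if k = 0 then 1 else 0 : ℝ) : ℝ) : ℂ) * w ^ k = 0 := by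
        intro k hk
        rw [if_neg hk]
        simp
      constructor
      · apply summable_of_ne_finset_zero (s := {0})
        intro k hk
        rw [mem_singleton] at hk
        rw [h2 k hk, norm_zero]
      · have h3 := hasSum_single (f := fun k : ℕ => (((if k = 0 then 1 else 0 : ℝ) : ℝ) : ℂ) * w ^ k) 0 h2
        simpa using h3
  | insert i S hi ih =>
    obtain ⟨c, hc0, hc, hw⟩ := ih (fun j hj => h0 j (mem_insert_of_mem hj)) (fun j hj => h1 j (mem_insert_of_mem hj))
    have hγ0 := h0 i (mem_insert_self i S)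
    have hγ1 := h1 i (mem_insert_self i S)
    refine ⟨fun k => ∑ j ∈ range (k + 1), c j * γ i ^ (k - j), ?_, ?_, ?_⟩
    · simp [hc0]
    · intro k
      constructor
      · exact sum_nonneg (fun j _ => mul_nonneg (hc j).1 (pow_nonneg hγ0 _))
      · have h2 : ∀ j ∈ range (k + 1), c j * γ i ^ (k - j) ≤ 2 ^ S.card * Γ ^ k * 2 ^ j := by
          intro j hj
          rw [mem_range] at hj
          have h3 : γ i ^ (k - j) ≤ Γ ^ (k - j) := pow_le_pow_left₀ hγ0 hγ1 _
          calc c j * γ i ^ (k - j) ≤ (2 ^ (j + S.card) * Γ ^ j) * Γ ^ (k - j) :=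
                mul_le_mul (hc j).2 h3 (pow_nonneg hγ0 _) (by positivity)
            _ = 2 ^ S.card * Γ ^ k * 2 ^ j := by
                have h4 : Γ ^ k = Γ ^ j * Γ ^ (k - j) := by
                  rw [← pow_add]
                  congr 1
                  omega
                rw [h4, pow_add]
                ring
        refine (sum_le_sum h2).trans ?_
        rw [← mul_sum, geom_sum_eq (by norm_num)]
        have h5 : ((2 : ℝ) ^ (k + 1) - 1) / (2 - 1) ≤ 2 ^ (k + 1) := by
          norm_num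
        rw [card_insert_of_notMem hi]
        calc 2 ^ S.card * Γ ^ k * (((2 : ℝ) ^ (k + 1) - 1) / (2 - 1)) ≤ 2 ^ S.card * Γ ^ k * 2 ^ (k + 1) := by
              gcongr
          _ = 2 ^ (k + (S.card + 1)) * Γ ^ k := by ring
    · intro w hwΓ
      obtain ⟨hs1, hs2⟩ := hw w hwΓ
      have hn : ‖(γ i : ℂ) * w‖ < 1 := by
        rw [norm_mul, Complex.norm_real, Real.norm_of_nonneg hγ0]
        have := norm_nonneg w
        nlinarith
      have hg1 : Summable (fun k : ℕ => ‖((γ i : ℂ) * w) ^ k‖) := by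
        have := summable_geometric_of_lt_one (norm_nonneg ((γ i : ℂ) * w)) hn
        simpa only [norm_pow] using this
      have hg2 : HasSum (fun k : ℕ => ((γ i : ℂ) * w) ^ k) (1 - (γ i : ℂ) * w)⁻¹ := hasSum_geometric_of_norm_lt_one hn
      have heq : ∀ k : ℕ, ((∑ j ∈ range (k + 1), c j * γ i ^ (k - j) : ℝ) : ℂ) * w ^ k =
          ∑ j ∈ range (k + 1), ((c j : ℂ) * w ^ j) * ((γ i : ℂ) * w) ^ (k - j) := by
        intro k
        push_cast
        rw [sum_mul]
        refine sum_congr rfl (fun j hj => ?_)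
        rw [mem_range] at hj
        have h4 : w ^ k = w ^ j * w ^ (k - j) := by
          rw [← pow_add]
          congr 1
          omega
        rw [h4, mul_pow]
        ring
      constructor
      · simp only [heq]
        exact summable_norm_sum_mul_range_of_summable_norm hs1 hg1
      · simp only [heq]
        have h6 := hasSum_sum_range_mul_of_summable_norm hs1 hg1
        rw [hs2.tsum_eq, hg2.tsum_eq] at h6
        rw [prod_insert hi, mul_comm ((1 - (γ i : ℂ) * w)⁻¹)]
        exact h6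

/-- the real parameters -/
noncomputable def alr (N : ℕ) (y : ℝ) (j : Fin N) : ℝ :=
  if j.1 = 0 then y else if j.1 = 1 then y⁻¹ else 1

theorem al0_eq (N : ℕ) (y : ℝ) (j : Fin N) : al0 N y j = (alr N y j : ℂ) := by
  unfold al0 alr
  split_ifs <;> simp

theorem alr_pos {N : ℕ} {y : ℝ} (hy : 1 ≤ y) (j : Fin N) : 0 < alr N y j := by
  unfold alr
  split_ifs
  · linarith
  · have : 0 < y := by linarith
    positivity
  · norm_num

theorem alr_le {N : ℕ} {y : ℝ} (hy : 1 ≤ y) (j : Fin N) : alr N y j ≤ y := by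
  unfold alr
  split_ifs
  · exact le_rfl
  · exact (inv_le_one_of_one_le₀ hy).trans hy
  · exact hy

theorem t_LR2 : S_LR2 := by
  refine ⟨200, ?_⟩
  intro N hN
  refine ⟨4 * N ^ 2 * (N ^ 2 + 1), ?_⟩
  intro q θ m hq hm hθ0 hθ1
  have hq0 : 0 < q := by linarith
  have hq1 : 1 ≤ q := by linarith
  obtain ⟨y, hy⟩ : ∃ y : ℝ, y = q ^ (θ * m) := ⟨_, rfl⟩
  have hy1 : 1 ≤ y := by rw [hy]; exact Real.one_le_rpow hq1 (by positivity)
  have hy0 : 0 < y := by linarith
  have h3 : 2 < N := by omega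
  obtain ⟨i₀, hi₀⟩ : ∃ i₀ : Fin N, i₀.1 = 2 := ⟨⟨2, h3⟩, rfl⟩
  obtain ⟨S, hS⟩ : ∃ S : Finset (Fin N × Fin N), S = (univ : Finset (Fin N × Fin N)).erase (i₀, i₀) := ⟨_, rfl⟩
  have hScard : S.card ≤ N ^ 2 := by
    rw [hS]
    refine (card_erase_le).trans ?_
    rw [card_univ, Fintype.card_prod, Fintype.card_fin]
    exact le_of_eq (sq N).symm
  obtain ⟨c, hc0, hc, hw⟩ := geo_prod S (fun p => alr N y p.1 * alr N y p.2) (y ^ 2) (by positivity)
    (fun p _ => (mul_pos (alr_pos hy1 p.1) (alr_pos hy1 p.2)).le)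
    (fun p _ => by
      rw [sq]
      exact mul_le_mul (alr_le hy1 p.1) (alr_le hy1 p.2) (alr_pos hy1 p.2).le hy0.le)
  rw [← hy]
  refine ⟨c, hc0, ?_, ?_⟩
  · intro k
    rw [abs_of_nonneg (hc k).1]
    rcases Nat.eq_zero_or_pos k with rfl | hk
    · rw [hc0]
      simp
    · refine (hc k).2.trans ?_
      have hNr : (200 : ℝ) ≤ N := by exact_mod_cast hN
      have hkr : (1 : ℝ) ≤ k := by exact_mod_cast hk
      have hmr : 4 * (N : ℝ) ^ 2 * ((N : ℝ) ^ 2 + 1) ≤ m := by exact_mod_cast hm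
      have hDr : ((N ^ 2 - 3 * N : ℕ) : ℝ) = (N : ℝ) ^ 2 - 3 * N := by
        rw [Nat.cast_sub (by nlinarith)]
        push_cast
        ring
      have hN2 : 0 < (N : ℝ) ^ 2 := by positivity
      have hD0 : 0 < (N : ℝ) ^ 2 - 3 * N := by nlinarith
      -- the powers of two
      have e1 : (2 : ℝ) ^ (k + S.card) ≤ q ^ (1 / (4 * (N : ℝ) ^ 2) * (k * m)) := by
        calc (2 : ℝ) ^ (k + S.card) ≤ (2 : ℝ) ^ (k * (N ^ 2 + 1)) := by
              apply pow_le_pow_right₀ (by norm_num)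
              nlinarith
          _ ≤ q ^ (k * (N ^ 2 + 1)) := by
              apply pow_le_pow_left₀ (by norm_num)
              linarith
          _ = q ^ (((k * (N ^ 2 + 1) : ℕ)) : ℝ) := (Real.rpow_natCast _ _).symm
          _ ≤ q ^ (1 / (4 * (N : ℝ) ^ 2) * (k * m)) := by
              apply Real.rpow_le_rpow_of_exponent_le hq1
              rw [one_div, inv_mul_eq_div, le_div_iff₀ (by positivity)]
              push_cast
              calc (k : ℝ) * ((N : ℝ) ^ 2 + 1) * (4 * (N : ℝ) ^ 2) = k * (4 * (N : ℝ) ^ 2 * ((N : ℝ) ^ 2 + 1)) := by ring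
                _ ≤ (k : ℝ) * (m : ℝ) := by gcongr
      have e2 : (y ^ 2) ^ k ≤ q ^ ((1 - 6 / (N : ℝ) ^ 2) * (k * m)) := by
        rw [hy, ← pow_mul, ← Real.rpow_natCast, ← Real.rpow_mul hq0.le]
        apply Real.rpow_le_rpow_of_exponent_le hq1
        push_cast
        have h5 : 2 * θ ≤ 1 - 6 / (N : ℝ) ^ 2 := by
          have : 6 / (N : ℝ) ^ 2 = 2 * (3 / (N : ℝ) ^ 2) := by ring
          linarith
        calc θ * (m : ℝ) * (2 * k) = (2 * θ) * (k * m) := by ring
          _ ≤ (1 - 6 / (N : ℝ) ^ 2) * (k * m) := by gcongr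
      calc (2 : ℝ) ^ (k + S.card) * (y ^ 2) ^ k ≤
            q ^ (1 / (4 * (N : ℝ) ^ 2) * (k * m)) * q ^ ((1 - 6 / (N : ℝ) ^ 2) * (k * m)) :=
            mul_le_mul e1 e2 (by positivity) (by positivity)
        _ = q ^ ((1 - 6 / (N : ℝ) ^ 2 + 1 / (4 * (N : ℝ) ^ 2)) * (k * m)) := by
            rw [← Real.rpow_add hq0]
            congr 1
            ring
        _ ≤ q ^ ((1 - 11 / (2 * ((N ^ 2 - 3 * N : ℕ) : ℝ))) * ((k : ℝ) * m)) := by
            apply Real.rpow_le_rpow_of_exponent_le hq1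
            apply mul_le_mul_of_nonneg_right _ (by positivity)
            rw [hDr]
            have h6 : 11 / (2 * ((N : ℝ) ^ 2 - 3 * N)) ≤ 23 / (4 * (N : ℝ) ^ 2) := by
              rw [div_le_div_iff₀ (by positivity) (by positivity)]
              nlinarith
            have h7 : 6 / (N : ℝ) ^ 2 - 1 / (4 * (N : ℝ) ^ 2) = 23 / (4 * (N : ℝ) ^ 2) := by
              field_simp
              norm_num
            linarith
  · intro w hwy
    have h4 := (hw w hwy).2
    have hw1 : ‖w‖ < 1 := by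
      have h5 : 1 ≤ y ^ 2 := one_le_pow₀ hy1
      have := norm_nonneg w
      nlinarith
    have hne : (1 : ℂ) - w ≠ 0 := by
      intro h
      have : w = 1 := by linear_combination -h
      rw [this, norm_one] at hw1
      exact lt_irrefl _ hw1
    have hi : alr N y i₀ = 1 := by
      unfold alr
      rw [hi₀]
      norm_num
    have h5 : (1 - w) * ∏ i, ∏ j, (1 - al0 N y i * conj (al0 N y j) * w)⁻¹ =
        ∏ p ∈ S, (1 - ((alr N y p.1 * alr N y p.2 : ℝ) : ℂ) * w)⁻¹ := by
      have h6 : ∏ i, ∏ j, (1 - al0 N y i * conj (al0 N y j) * w)⁻¹ =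
          ∏ p : Fin N × Fin N, (1 - ((alr N y p.1 * alr N y p.2 : ℝ) : ℂ) * w)⁻¹ := by
        rw [Fintype.prod_prod_type]
        refine prod_congr rfl (fun i _ => prod_congr rfl (fun j _ => ?_))
        rw [al0_eq, al0_eq, Complex.conj_ofReal]
        push_cast
        rfl
      rw [h6, ← mul_prod_erase univ _ (mem_univ (i₀, i₀)), ← hS]
      simp only [hi]
      rw [← mul_assoc]
      push_cast
      rw [one_mul, one_mul, mul_inv_cancel₀ hne, one_mul]
    rw [h5]
    exact h4

end Pool.Agent.Q237.PX
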