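import Pool.Agent.Q237.PX.AFM

/-!
# Project PX, job P0R: the special prime split off
-/

set_option autoImplicit false

open Finset Polynomial ComplexConjugate
open Pool.Agent.H341R2.Sharp (Mon mem_Mon)

namespace Pool.Agent.Q237.PX

open Pool.Agent.Q284.PS Pool.Agent.Q284.PX UniqueFactorizationMonoid
open Pool.Agent.Q277.PS (nf_mem pow_dvd_iff_count mem_nf_iff mirr_eq)

section gen

variable {F : Type} [Field F]

open Classical in
/-- the sum over the monic polynomials is split by the multiplicity of a prime -/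
theorem sum_split [Fintype F] {E : Type} [CommRing E] (P₀ : F[X]) (hP : P₀.Monic) (hI : Irreducible P₀)
    (A A0 : F[X] → E) (c : ℕ → E) (h1 : ∀ (k : ℕ) (f : F[X]), f.Monic → ¬ P₀ ∣ f → A (P₀ ^ k * f) = c k * A0 f)
    (h2 : ∀ f : F[X], f.Monic → P₀ ∣ f → A0 f = 0) (n : ℕ) :
    ∑ f ∈ Mon F n, A f = ∑ k ∈ (range (n + 1)).filter (fun k => k * P₀.natDegree ≤ n),
      c k * ∑ f ∈ Mon F (n - k * P₀.natDegree), A0 f := by
  have hm : 1 ≤ P₀.natDegree := hI.natDegree_pos
  have hmap : ∀ f ∈ Mon F n, (normalizedFactors f).count P₀ ∈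
      (range (n + 1)).filter (fun k => k * P₀.natDegree ≤ n) := by
    intro f hf
    rw [mem_Mon] at hf
    have h3 : P₀ ^ ((normalizedFactors f).count P₀) ∣ f :=
      (pow_dvd_iff_count hf.1.ne_zero hP hI _).2 le_rfl
    have h4 := natDegree_le_of_dvd h3 hf.1.ne_zero
    rw [natDegree_pow, hf.2] at h4
    rw [mem_filter, mem_range]
    refine ⟨?_, h4⟩
    have h5 : (normalizedFactors f).count P₀ * 1 ≤ (normalizedFactors f).count P₀ * P₀.natDegree :=
      Nat.mul_le_mul_left _ hm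
    omega
  rw [← sum_fiberwise_of_maps_to hmap]
  refine sum_congr rfl (fun k hk => ?_)
  rw [mem_filter, mem_range] at hk
  obtain ⟨_, hkn⟩ := hk
  have hPk : (P₀ ^ k).Monic := hP.pow k
  have h3 : ∑ f ∈ Mon F (n - k * P₀.natDegree), A0 f =
      ∑ f ∈ (Mon F (n - k * P₀.natDegree)).filter (fun f => ¬ P₀ ∣ f), A0 f := by
    rw [← sum_filter_add_sum_filter_not (Mon F (n - k * P₀.natDegree)) (fun f => P₀ ∣ f)]
    rw [sum_eq_zero, zero_add]
    intro f hf
    rw [mem_filter, mem_Mon] at hf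
    exact h2 f hf.1.1 hf.2
  rw [h3, mul_sum]
  symm
  apply sum_nbij' (fun f => P₀ ^ k * f) (fun f => f /ₘ P₀ ^ k)
  · intro f hf
    rw [mem_filter, mem_Mon] at hf
    obtain ⟨⟨hf1, hf2⟩, hf3⟩ := hf
    rw [mem_filter, mem_Mon]
    refine ⟨⟨hPk.mul hf1, ?_⟩, ?_⟩
    · rw [hPk.natDegree_mul hf1, natDegree_pow, hf2]
      omega
    · have h0 : P₀ ^ k * f ≠ 0 := (hPk.mul hf1).ne_zero
      apply le_antisymm
      · by_contra hcon
        push Not at hcon
        have h4 := (pow_dvd_iff_count h0 hP hI (k + 1)).2 hcon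
        rw [pow_succ] at h4
        exact hf3 ((mul_dvd_mul_iff_left hPk.ne_zero).1 h4)
      · exact (pow_dvd_iff_count h0 hP hI k).1 (dvd_mul_right _ _)
  · intro f hf
    rw [mem_filter, mem_Mon] at hf
    obtain ⟨⟨hf1, hf2⟩, hf3⟩ := hf
    have hdv : P₀ ^ k ∣ f := (pow_dvd_iff_count hf1.ne_zero hP hI k).2 hf3.ge
    have heq : f = P₀ ^ k * (f /ₘ P₀ ^ k) := by
      have h4 := modByMonic_add_div f (P₀ ^ k)
      rw [(modByMonic_eq_zero_iff_dvd hPk).2 hdv, zero_add] at h4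
      exact h4.symm
    have hqm : (f /ₘ P₀ ^ k).Monic := by
      refine hPk.of_mul_monic_left ?_
      rw [← heq]
      exact hf1
    rw [mem_filter, mem_Mon]
    refine ⟨⟨hqm, ?_⟩, ?_⟩
    · have h4 : f.natDegree = k * P₀.natDegree + (f /ₘ P₀ ^ k).natDegree := by
        conv_lhs => rw [heq]
        rw [hPk.natDegree_mul hqm, natDegree_pow]
      omega
    · intro h4
      have h5 : P₀ ^ (k + 1) ∣ f := by
        rw [heq, pow_succ]
        exact mul_dvd_mul_left _ h4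
      have h6 := (pow_dvd_iff_count hf1.ne_zero hP hI (k + 1)).1 h5
      omega
  · intro f _
    exact mul_divByMonic_cancel_left f hPk
  · intro f hf
    rw [mem_filter, mem_Mon] at hf
    have hdv : P₀ ^ k ∣ f := (pow_dvd_iff_count hf.1.1.ne_zero hP hI k).2 hf.2.ge
    have h4 := modByMonic_add_div f (P₀ ^ k)
    rw [(modByMonic_eq_zero_iff_dvd hPk).2 hdv, zero_add] at h4
    exact h4
  · intro f hf
    rw [mem_filter, mem_Mon] at hf
    rw [h1 k f hf.1.1 hf.2]

open Classical in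
/-- away from the special prime the local coefficients agree -/
theorem AF_congr (v v' : F[X] → ℕ → ℝ) (f : F[X]) (h : ∀ P : F[X], P ∣ f → Irreducible P → v P = v' P) :
    AF v f = AF v' f := by
  unfold AF
  refine prod_congr rfl (fun P hP => ?_)
  rw [Multiset.mem_toFinset] at hP
  rw [h P (dvd_of_mem_normalizedFactors hP) (nf_mem hP).2]

open Classical in
theorem AF_zero (v : F[X] → ℕ → ℝ) (P₀ f : F[X]) (hP : P₀.Monic) (hI : Irreducible P₀)
    (hv : ∀ k : ℕ, 1 ≤ k → v P₀ k = 0) (hf : f.Monic) (hd : P₀ ∣ f) : AF v f = 0 := by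
  unfold AF
  have h1 : P₀ ∈ normalizedFactors f := (mem_nf_iff hf.ne_zero).2 ⟨hP, hI, hd⟩
  apply prod_eq_zero (Multiset.mem_toFinset.2 h1)
  exact hv _ (Multiset.one_le_count_iff_mem.2 h1)

theorem t_P0R (hAFM : S_AFM) : S_P0R := by
  intro F _ _ h P₀ g a hh0 hP hI hg n
  classical
  have hv : ∀ P : F[X], Lo h P₀ g a P 0 = 1 := by
    intro P
    unfold Lo
    split_ifs
    · exact hg
    · exact hh0 _
  have hne : ∀ P f : F[X], ¬ P₀ ∣ f → P ∣ f → Irreducible P → Lo h P₀ g a P = Lo h P₀ g0 a P := by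
    intro P f h1 h2 _
    have h3 : P ≠ P₀ := by
      rintro rfl
      exact h1 h2
    funext k
    unfold Lo
    rw [if_neg h3, if_neg h3]
  obtain ⟨_, hmul, hpow, _, _⟩ := hAFM F (Lo h P₀ g a) hv
  have hkey : ∀ (k : ℕ) (f : F[X]), f.Monic → ¬ P₀ ∣ f →
      AF (Lo h P₀ g a) (P₀ ^ k * f) = g k * AF (Lo h P₀ g0 a) f := by
    intro k f hf hd
    have hcop : IsCoprime (P₀ ^ k) f := IsCoprime.pow_left ((hI.coprime_iff_not_dvd).2 hd)
    rw [hmul _ _ (hP.pow k) hf hcop, hpow P₀ k hP hI]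
    have h1 : Lo h P₀ g a P₀ k = g k := by unfold Lo; rw [if_pos rfl]
    rw [h1, AF_congr (Lo h P₀ g a) (Lo h P₀ g0 a) f (fun P hP1 hP2 => hne P f hd hP1 hP2)]
  have hzero : ∀ f : F[X], f.Monic → P₀ ∣ f → AF (Lo h P₀ g0 a) f = 0 := by
    intro f hf hd
    apply AF_zero _ P₀ f hP hI _ hf hd
    intro k hk
    unfold Lo g0
    rw [if_pos rfl, if_neg (by omega)]
  refine ⟨fun χ hχ => ?_, ?_⟩
  · have hpw : ∀ k : ℕ, χ (P₀ ^ k) = χ P₀ ^ k := by
      intro k
      induction k with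
      | zero => rw [pow_zero, pow_zero, hχ.1]
      | succ k ih => rw [pow_succ, pow_succ, hχ.2 _ _ (hP.pow k) hP, ih]
    unfold ef
    rw [sum_split P₀ hP hI (fun f => (AF (Lo h P₀ g a) f : ℂ) * χ f) (fun f => (AF (Lo h P₀ g0 a) f : ℂ) * χ f)
      (fun k => (g k : ℂ) * χ P₀ ^ k)]
    · intro k f hf hd
      rw [hkey k f hf hd, hχ.2 _ _ (hP.pow k) hf, hpw]
      push_cast
      ring
    · intro f hf hd
      rw [hzero f hf hd]
      simp
  · rw [sum_split P₀ hP hI (fun f => |AF (Lo h P₀ g a) f|) (fun f => |AF (Lo h P₀ g0 a) f|) (fun k => |g k|)]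
    · intro k f hf hd
      rw [hkey k f hf hd, abs_mul]
    · intro f hf hd
      rw [hzero f hf hd, abs_zero]

end gen

end Pool.Agent.Q237.PX
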