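import Pool.Agent.Q237.PX.CVV
import Pool.Agent.Q237.PX.CVB

/-!
# Project PX, job ZL: no zeros in the middle of the strip
-/

set_option autoImplicit false

open Finset Polynomial ComplexConjugate Filter

namespace Pool.Agent.Q237.PX

open Pool.Agent.Q284.PS Pool.Agent.Q284.PX

/-- the numbers -/
theorem num_zl {d M : ℕ} (hd : 21 * 10 ^ 8 < d) (hM : d ≤ 2 * M) {q δ : ℝ} (hq : 3 ≤ q)
    (hδ : 100 * Real.log d / d ≤ δ) : 2 * (M : ℝ) < kap d * q ^ ((δ / 10 - 5 / (d : ℝ)) * M) := by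
  have hdr : (21 * 10 ^ 8 : ℝ) < d := by exact_mod_cast hd
  have hd0 : (0 : ℝ) < d := by linarith
  have hMr : (d : ℝ) ≤ 2 * M := by exact_mod_cast hM
  have hM0 : (0 : ℝ) < M := by linarith
  obtain ⟨L, hL⟩ : ∃ L : ℝ, L = Real.log d := ⟨_, rfl⟩
  have hL1 : 1 ≤ L := by
    rw [hL, Real.le_log_iff_exp_le hd0]
    have := Real.exp_one_lt_d9
    linarith
  obtain ⟨y, hy⟩ : ∃ y : ℝ, y = (M : ℝ) / d := ⟨_, rfl⟩
  have hy1 : 1 / 2 ≤ y := by
    rw [hy, le_div_iff₀ hd0]
    linarith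
  have hyM : y * d = M := by rw [hy]; field_simp
  have h1 : y * (10 * L - 5) ≤ (δ / 10 - 5 / (d : ℝ)) * M := by
    rw [← hL, div_le_iff₀ hd0] at hδ
    have h2 : (δ / 10 - 5 / (d : ℝ)) * M = y * (δ * d / 10 - 5) := by
      rw [← hyM]
      field_simp
    rw [h2]
    apply mul_le_mul_of_nonneg_left _ (by linarith)
    linarith
  have h2 : 0 ≤ y * (10 * L - 5) := mul_nonneg (by linarith) (by linarith)
  have h3 : Real.exp (y * (10 * L - 5)) ≤ q ^ ((δ / 10 - 5 / (d : ℝ)) * M) := by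
    have hq0 : 0 < q := by linarith
    rw [Real.rpow_def_of_pos hq0, Real.exp_le_exp]
    have h4 : 1 ≤ Real.log q := by
      rw [Real.le_log_iff_exp_le hq0]
      have := Real.exp_one_lt_d9
      linarith
    calc y * (10 * L - 5) ≤ (δ / 10 - 5 / (d : ℝ)) * M := h1
      _ = 1 * ((δ / 10 - 5 / (d : ℝ)) * M) := (one_mul _).symm
      _ ≤ Real.log q * ((δ / 10 - 5 / (d : ℝ)) * M) := mul_le_mul_of_nonneg_right h4 (h2.trans h1)
  have h5 : (d : ℝ) ^ 5 * (2 * y) ≤ 21 * Real.exp (y * (10 * L - 5)) := by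
    have h6 : y * (10 * L - 5) = (5 * L + (y - 1 / 2) * (10 * L - 5)) - 5 / 2 := by ring
    have h7 : Real.exp (5 * L) = (d : ℝ) ^ 5 := by
      have : (5 : ℝ) * L = ((5 : ℕ) : ℝ) * L := by norm_num
      rw [this, Real.exp_nat_mul, hL, Real.exp_log hd0]
    have h8 : 2 * y ≤ Real.exp ((y - 1 / 2) * (10 * L - 5)) := by
      have h9 := Real.add_one_le_exp ((y - 1 / 2) * (10 * L - 5))
      nlinarith
    have h10 : Real.exp (5 / 2) ≤ 21 := by
      have e1 : Real.exp (5 / 2) ≤ Real.exp 3 := by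
        rw [Real.exp_le_exp]
        norm_num
      have e2 : Real.exp 3 = Real.exp 1 ^ 3 := by
        rw [← Real.exp_nat_mul]
        norm_num
      have e3 := Real.exp_one_lt_d9
      have e4 : Real.exp 1 ^ 3 ≤ (2.7182818286 : ℝ) ^ 3 := by
        apply pow_le_pow_left₀ (Real.exp_pos 1).le e3.le
      have e5 : (2.7182818286 : ℝ) ^ 3 ≤ 21 := by norm_num
      linarith
    rw [h6, Real.exp_sub, Real.exp_add, h7]
    have h11 : 0 < Real.exp (5 / 2) := Real.exp_pos _
    rw [mul_div_assoc', le_div_iff₀ h11]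
    calc (d : ℝ) ^ 5 * (2 * y) * Real.exp (5 / 2) ≤
          (d : ℝ) ^ 5 * Real.exp ((y - 1 / 2) * (10 * L - 5)) * 21 := by gcongr
      _ = 21 * ((d : ℝ) ^ 5 * Real.exp ((y - 1 / 2) * (10 * L - 5))) := by ring
  have h12 : 2 * (M : ℝ) * (10 ^ 8 * (d : ℝ) ^ 3) < q ^ ((δ / 10 - 5 / (d : ℝ)) * M) := by
    refine lt_of_lt_of_le ?_ h3
    rw [← hyM]
    have h13 : 0 < 2 * y * (d : ℝ) ^ 4 := by positivity
    have h14 : 2 * y * (d : ℝ) ^ 4 * (21 * 10 ^ 8) < 2 * y * (d : ℝ) ^ 4 * d := mul_lt_mul_of_pos_left hdr h13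
    nlinarith
  unfold kap
  rw [one_div, inv_mul_eq_div, lt_div_iff₀ (by positivity)]
  exact h12

theorem t_ZL : S_ZL := by
  refine ⟨21 * 10 ^ 8 + 1, ?_⟩
  intro d hd q D M ε e hq hdD hDM hε he0 hlow hmid hM hFE s hs1 hs2 hsum
  subst hDM
  have hd1 : 21 * 10 ^ 8 < d := by omega
  have hdr : (21 * 10 ^ 8 : ℝ) < d := by exact_mod_cast hd1
  have hd0 : (0 : ℝ) < d := by linarith
  have hMr : (d : ℝ) ≤ 2 * M := by exact_mod_cast hdD
  have hM0 : (0 : ℝ) < M := by linarith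
  have hMn : 0 < M := by exact_mod_cast hM0
  have hq0 : 0 < q := by linarith
  have hq1 : 1 ≤ q := by linarith
  have hκ : 0 < kap d := by unfold kap; positivity
  have hlog : 0 < Real.log d := Real.log_pos (by linarith)
  obtain ⟨σ, hσ⟩ : ∃ σ : ℝ, σ = s.re := ⟨_, rfl⟩
  obtain ⟨δ, hδ⟩ : ∃ δ : ℝ, δ = min σ (1 - σ) := ⟨_, rfl⟩
  have hη0 : 0 < 100 * Real.log d / d := by positivity
  rw [← hσ] at hs1 hs2
  have hδ1 : 100 * Real.log d / d ≤ δ := by
    rw [hδ]
    exact le_min hs1.le (by linarith)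
  have hδσ : δ ≤ σ := by rw [hδ]; exact min_le_left _ _
  have hδσ' : δ ≤ 1 - σ := by rw [hδ]; exact min_le_right _ _
  have hδ0 : 0 < δ := by linarith
  obtain ⟨Z, hZ⟩ : ∃ Z : ℂ, Z = (q : ℂ) ^ (-s) := ⟨_, rfl⟩
  have hZn : ‖Z‖ = q ^ (-σ) := by
    rw [hZ, Complex.norm_cpow_eq_rpow_re_of_pos hq0, Complex.neg_re, ← hσ]
  have hZp : ∀ k : ℕ, ‖Z ^ k‖ = q ^ (-σ * k) := by
    intro k
    rw [norm_pow, hZn, ← Real.rpow_natCast, ← Real.rpow_mul hq0.le]
  have hs0 : 0 < Real.sqrt q := Real.sqrt_pos.2 hq0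
  obtain ⟨Bd, hBd⟩ : ∃ Bd : ℝ, Bd = q ^ ((1 - σ - δ / 10) * M) := ⟨_, rfl⟩
  -- the lower half
  have ha : ∀ k ∈ range M, ‖e k * Z ^ k‖ ≤ Bd := by
    intro k hk
    rw [mem_range] at hk
    rw [norm_mul, hZp]
    rcases Nat.eq_zero_or_pos k with rfl | hk0
    · rw [he0, norm_one, one_mul, hBd]
      apply Real.rpow_le_rpow_of_exponent_le hq1
      have : 0 ≤ (1 - σ - δ / 10) * (M : ℝ) := mul_nonneg (by linarith) hM0.le
      simpa using this
    · rcases lt_or_ge (20 * k) (9 * (2 * M)) with h | h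
      · have hkr : 10 * (k : ℝ) ≤ 9 * M := by
          have : 10 * k ≤ 9 * M := by omega
          exact_mod_cast this
        have h1 := ek_le hq hk0 (hlow k hk0 h)
        calc ‖e k‖ * q ^ (-σ * k) ≤ q ^ (k : ℝ) * q ^ (-σ * k) := by gcongr
          _ = q ^ ((1 - σ) * k) := by
              rw [← Real.rpow_add hq0]
              congr 1
              ring
          _ ≤ Bd := by
              rw [hBd]
              apply Real.rpow_le_rpow_of_exponent_le hq1
              have h2 : (1 - σ) * (k : ℝ) ≤ (1 - σ) * (9 / 10 * M) :=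
                mul_le_mul_of_nonneg_left (by linarith) (by linarith)
              have h3 : (1 - σ) * (9 / 10 * (M : ℝ)) ≤ (1 - σ - δ / 10) * M := by nlinarith
              linarith
      · rw [hmid k h hk, norm_zero, zero_mul, hBd]
        positivity
  -- the upper half
  have hb : ∀ k ∈ range M, ‖e (2 * M - k) * Z ^ (2 * M - k)‖ ≤ Bd := by
    intro k hk
    rw [mem_range] at hk
    have hcast : ((2 * M - k : ℕ) : ℝ) = 2 * M - k := by
      rw [Nat.cast_sub (by omega)]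
      push_cast
      ring
    have hcast2 : ((2 * M - k - k : ℕ) : ℝ) = 2 * M - 2 * k := by
      have : 2 * M - k - k = 2 * M - 2 * k := by omega
      rw [this, Nat.cast_sub (by omega)]
      push_cast
      ring
    rw [norm_mul, hZp, hFE (2 * M - k) k (by omega) (by omega), norm_mul, norm_mul, hε, one_mul, Complex.norm_conj,
      norm_pow, Complex.norm_real, Real.norm_of_nonneg hs0.le, sqrt_pow hq0, hcast, hcast2]
    have h0 : q ^ ((2 * (M : ℝ) - 2 * k) / 2) * ‖e k‖ * q ^ (-σ * (2 * (M : ℝ) - k)) =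
        ‖e k‖ * q ^ ((M : ℝ) - k - σ * (2 * M - k)) := by
      have h1 : (M : ℝ) - k - σ * (2 * M - k) = (2 * (M : ℝ) - 2 * k) / 2 + (-σ * (2 * (M : ℝ) - k)) := by ring
      rw [h1, Real.rpow_add hq0]
      ring
    rw [h0]
    rcases Nat.eq_zero_or_pos k with rfl | hk0
    · rw [he0, norm_one, one_mul, hBd]
      apply Real.rpow_le_rpow_of_exponent_le hq1
      push_cast
      nlinarith
    · rcases lt_or_ge (20 * k) (9 * (2 * M)) with h | h
      · have hkr : 10 * (k : ℝ) ≤ 9 * M := by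
          have : 10 * k ≤ 9 * M := by omega
          exact_mod_cast this
        have h1 := ek_le hq hk0 (hlow k hk0 h)
        calc ‖e k‖ * q ^ ((M : ℝ) - k - σ * (2 * M - k)) ≤ q ^ (k : ℝ) * q ^ ((M : ℝ) - k - σ * (2 * M - k)) := by
              gcongr
          _ = q ^ ((M : ℝ) - 2 * σ * M + σ * k) := by
              rw [← Real.rpow_add hq0]
              congr 1
              ring
          _ ≤ Bd := by
              rw [hBd]
              apply Real.rpow_le_rpow_of_exponent_le hq1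
              have h2 : σ * (k : ℝ) ≤ σ * (9 / 10 * M) :=
                mul_le_mul_of_nonneg_left (by linarith) (by linarith)
              have h3 : δ * (M : ℝ) ≤ σ * M := mul_le_mul_of_nonneg_right hδσ hM0.le
              linarith
      · rw [hmid k h hk, norm_zero, zero_mul, hBd]
        positivity
  rw [← hZ, sum_refl] at hsum
  have h1 : ‖e M * Z ^ M‖ ≤ 2 * M * Bd := by
    have h2 : e M * Z ^ M = -(∑ k ∈ range M, e k * Z ^ k + ∑ k ∈ range M, e (2 * M - k) * Z ^ (2 * M - k)) := by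
      linear_combination hsum
    rw [h2, norm_neg]
    refine (norm_add_le _ _).trans ?_
    have h3 := norm_sum_le_of_le _ ha
    have h4 := norm_sum_le_of_le _ hb
    rw [sum_const, card_range, nsmul_eq_mul] at h3 h4
    linarith
  rw [norm_mul, hM, hZp] at h1
  have h2 : kap d * q ^ ((1 - 5 / (d : ℝ)) * M) * q ^ (-σ * M) =
      kap d * q ^ ((δ / 10 - 5 / (d : ℝ)) * M) * Bd := by
    rw [hBd, mul_assoc, mul_assoc, ← Real.rpow_add hq0, ← Real.rpow_add hq0]
    congr 2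
    ring
  rw [h2] at h1
  have hBd0 : 0 < Bd := by rw [hBd]; positivity
  have h3 := le_of_mul_le_mul_right h1 hBd0
  have h4 := num_zl hd1 hdD hq hδ1
  linarith

end Pool.Agent.Q237.PX
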